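import Pool.Agent.Lib.helper7.PermLLL

set_option autoImplicit false

namespace Pool.Agent.H.MP_626dc7_co

open Finset Pool.Agent.Lib.helper7.PermLLL

theorem main (n d : ℕ) (hn : 6 ≤ n) (hd : 2 ^ 22 * d ≤ n) (F : Finset (Finset (Fin n)))
    (h4 : ∀ S ∈ F, S.card = 4)
    (hF : ∀ x y : Fin n, x ≠ y → (F.filter fun S => x ∈ S ∧ y ∈ S).card ≤ d) :
    ∃ π : Equiv.Perm (Fin n), ∀ i j : Fin n,
      ({π i, π (finRotate n i)} : Finset (Fin n)) ∪ {π j, π (finRotate n j)} ∉ F := by
  let P : Finset (Fin 4 → Fin n) :=
    univ.filter fun p => p 1 = finRotate n (p 0) ∧ p 3 = finRotate n (p 2)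
  let V : Finset (Fin 4 → Fin n) := univ.filter fun v => univ.image v ∈ F
  have hP : P.card ≤ n * n := by
    have := card_le_card_of_injOn (s := P) (t := (univ : Finset (Fin n × Fin n)))
      (fun p => (p 0, p 2)) (fun _ _ => by simp) (by
        intro p hp q hq e
        simp only [P, coe_filter, mem_univ, true_and, Set.mem_ofPred_eq, Prod.mk.injEq] at hp hq e
        funext i; fin_cases i
        · exact e.1
        · exact hp.1.trans (e.1 ▸ hq.1.symm)
        · exact e.2
        · exact hp.2.trans (e.2 ▸ hq.2.symm))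
    simpa using this
  have hPt : ∀ t, (P.filter fun p => ∃ i, p i = t).card ≤ 4 * n := by
    intro t
    have := card_le_card_of_injOn (s := P.filter fun p => ∃ i, p i = t)
      (t := (({t, (finRotate n).symm t} : Finset (Fin n)) ×ˢ univ) ∪
        (univ ×ˢ ({t, (finRotate n).symm t} : Finset (Fin n))))
      (fun p => (p 0, p 2)) (by
        intro p hp
        simp only [P, coe_filter, mem_filter, mem_univ, true_and, Set.mem_ofPred_eq] at hp
        obtain ⟨⟨a, b⟩, i, rfl⟩ := hp
        simp only [coe_union, coe_product, Set.mem_union, Set.mem_prod, coe_insert, coe_singleton,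
          Set.mem_insert_iff, Set.mem_singleton_iff, coe_univ, Set.mem_univ, and_true, true_and]
        fin_cases i
        · exact Or.inl (Or.inl rfl)
        · exact Or.inl (Or.inr ((Equiv.eq_symm_apply _).2 a.symm))
        · exact Or.inr (Or.inl rfl)
        · exact Or.inr (Or.inr ((Equiv.eq_symm_apply _).2 b.symm))) (by
        intro p hp q hq e
        simp only [P, coe_filter, mem_filter, mem_univ, true_and, Set.mem_ofPred_eq,
          Prod.mk.injEq] at hp hq e
        funext i; fin_cases i
        · exact e.1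
        · exact hp.1.1.trans (e.1 ▸ hq.1.1.symm)
        · exact e.2
        · exact hp.1.2.trans (e.2 ▸ hq.1.2.symm))
    refine this.trans ((card_union_le _ _).trans ?_)
    have h2 : ({t, (finRotate n).symm t} : Finset (Fin n)).card ≤ 2 := card_le_two
    simp only [card_product, card_univ, Fintype.card_fin]
    nlinarith
  have hFu : ∀ u, (F.filter fun S => u ∈ S).card ≤ n * d := by
    intro u
    have : (F.filter fun S => u ∈ S) ⊆ (univ.erase u).biUnion
        fun y => F.filter fun S => u ∈ S ∧ y ∈ S := by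
      intro S hS
      obtain ⟨h1, h2⟩ := mem_filter.1 hS
      obtain ⟨y, hy, hne⟩ := exists_mem_ne (by rw [h4 S h1]; norm_num : 1 < S.card) u
      exact mem_biUnion.2 ⟨y, by simp [hne], mem_filter.2 ⟨h1, h2, hy⟩⟩
    refine (card_le_card this).trans ((card_biUnion_le_card_mul _ _ d fun y hy =>
      hF u y (ne_of_mem_erase hy).symm).trans (Nat.mul_le_mul_right _ ?_))
    simpa using card_le_univ (univ.erase u)
  have hVu : ∀ u, (V.filter fun v => ∃ i, v i = u).card ≤ 256 * (n * d) := by
    intro u
    have : (V.filter fun v => ∃ i, v i = u) ⊆ (F.filter fun S => u ∈ S).biUnion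
        fun S => Fintype.piFinset fun _ : Fin 4 => S := by
      intro v hv
      simp only [V, mem_filter, mem_univ, true_and] at hv
      refine mem_biUnion.2 ⟨univ.image v, mem_filter.2 ⟨hv.1, by simpa using hv.2⟩, ?_⟩
      simp
    refine (card_le_card this).trans ((card_biUnion_le_card_mul _ _ 256 fun S hS => ?_).trans ?_)
    · rw [Fintype.card_piFinset]; simp [h4 S (mem_filter.1 hS).1]
    · rw [mul_comm]; exact Nat.mul_le_mul_left _ (hFu u)
  have hV : V.card ≤ n * (256 * (n * d)) := by
    have : V ⊆ univ.biUnion fun u => V.filter fun v => ∃ i, v i = u := by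
      intro v hv
      exact mem_biUnion.2 ⟨v 0, mem_univ _, mem_filter.2 ⟨hv, 0, rfl⟩⟩
    refine (card_le_card this).trans ((card_biUnion_le_card_mul _ _ _ fun u _ => hVu u).trans ?_)
    simp
  let E : Finset (Ev n 4) :=
    (P ×ˢ V).filter fun e => Function.Injective e.1 ∧ Function.Injective e.2
  obtain ⟨π, hπ⟩ := perm_lll E (1024 * (n ^ 3 * d)) (by norm_num) (by omega)
    (fun e he => (mem_filter.1 he).2) (by
      rintro (t | u)
      · have : (E.filter fun e => Sum.inl t ∈ supp e) ⊆ (P.filter fun p => ∃ i, p i = t) ×ˢ V := by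
          intro e he
          obtain ⟨h1, h2⟩ := mem_filter.1 he
          obtain ⟨h3, h5⟩ := mem_product.1 (mem_filter.1 h1).1
          exact mem_product.2 ⟨mem_filter.2 ⟨h3, by simpa [supp] using h2⟩, h5⟩
        refine (card_le_card this).trans ?_
        rw [card_product]
        exact (Nat.mul_le_mul (hPt t) hV).trans (le_of_eq (by ring))
      · have : (E.filter fun e => Sum.inr u ∈ supp e) ⊆ P ×ˢ (V.filter fun v => ∃ i, v i = u) := by
          intro e he
          obtain ⟨h1, h2⟩ := mem_filter.1 he
          obtain ⟨h3, h5⟩ := mem_product.1 (mem_filter.1 h1).1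
          exact mem_product.2 ⟨h3, mem_filter.2 ⟨h5, by simpa [supp] using h2⟩⟩
        refine (card_le_card this).trans ?_
        rw [card_product]
        refine (Nat.mul_le_mul hP (hVu u)).trans ?_
        have : n * n * (256 * (n * d)) = 256 * (n ^ 3 * d) := by ring
        omega) (by
      obtain ⟨m, rfl⟩ : ∃ m, n = m + 3 := ⟨n - 3, by omega⟩
      have e : (m + 3).descFactorial 4 = m * ((m + 1) * ((m + 2) * (m + 3))) := by
        simp [Nat.descFactorial_succ]
      rw [e]
      have h1 : m + 3 ≤ 2 * m := by omega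
      have h2 : (m + 3) ^ 3 ≤ 8 * (m * ((m + 1) * (m + 2))) := by
        calc (m + 3) ^ 3 ≤ (2 * m) ^ 3 := Nat.pow_le_pow_left h1 3
          _ = 8 * (m * (m * m)) := by ring
          _ ≤ _ := by gcongr <;> omega
      calc 2 * (1024 * ((m + 3) ^ 3 * d) * 2 ^ (2 * 4)) = (m + 3) ^ 3 * (2 ^ 19 * d) := by ring
        _ ≤ 8 * (m * ((m + 1) * (m + 2))) * (2 ^ 19 * d) := Nat.mul_le_mul_right _ h2
        _ = m * ((m + 1) * (m + 2)) * (2 ^ 22 * d) := by ring
        _ ≤ m * ((m + 1) * (m + 2)) * (m + 3) := Nat.mul_le_mul_left _ hd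
        _ = _ := by ring)
  refine ⟨π, fun i j hij => ?_⟩
  let p : Fin 4 → Fin n := ![i, finRotate n i, j, finRotate n j]
  have him : univ.image (π ∘ p) =
      ({π i, π (finRotate n i)} : Finset (Fin n)) ∪ {π j, π (finRotate n j)} := by
    ext x
    simp only [mem_image, mem_univ, true_and, Fin.exists_fin_succ, p, mem_union, mem_insert,
      mem_singleton]
    simp [eq_comm, or_assoc]
  have hinj : Function.Injective (π ∘ p) := by
    have := h4 _ hij
    rw [← him] at this
    have h2 := card_image_iff.1 (this.trans (by simp : 4 = (univ : Finset (Fin 4)).card))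
    simpa using h2
  refine hπ (p, π ∘ p) (mem_filter.2 ⟨mem_product.2 ⟨?_, ?_⟩, hinj.of_comp, hinj⟩) fun _ => rfl
  · simp [P, p]
  · simp only [V, mem_filter, mem_univ, true_and]
    rwa [him]

end Pool.Agent.H.MP_626dc7_co
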